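import Mathlib
import Pool.Agent.helper8.HB.Final

/-!
Covering integers by one residue class for each prime in `[N ^ α, 2 N ^ α)`: a lower bound for the
size of the union by a hairbrush argument, with the multiplicative energy of the primes that meet
one progression bounded through the large sieve.
-/

namespace Pool.Agent.helper86.Parked.Hairbrush

open Pool.Agent.helper86

theorem result (α : ℝ) (hα : 1 / 2 < α) (hα1 : α < 1) (r : ℕ) (hr : 2 ≤ r) (κ : ℝ) (hκ : 0 < κ)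
    (hκr : κ ≤ 2 / r) (hκα : κ ≤ 1 / α - 1) (ε : ℝ) (hε : 0 < ε) :
    ∃ N₀ : ℕ, ∀ N : ℕ, N₀ ≤ N → ∀ a : (p : ℕ) → ZMod p,
      (N : ℝ) ^ (1 - α * max κ ((r - (r - 1) * κ) / (2 * r - 1)) - ε) ≤
        ({n : ℕ | 1 ≤ n ∧ n ≤ N ∧ ∃ p : ℕ, p.Prime ∧ (N : ℝ) ^ α ≤ p ∧ (p : ℝ) < 2 * (N : ℝ) ^ α ∧
          (n : ZMod p) = a p}.ncard : ℝ) := by
  classical
  have hα0 : 0 < α := by linarith
  obtain ⟨s, rfl⟩ : ∃ s, r = s + 1 := ⟨r - 1, by omega⟩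
  have hrR : (0 : ℝ) < ((s + 1 : ℕ) : ℝ) := by positivity
  have h1 : κ * (s + 1) ≤ 2 := by
    rw [le_div_iff₀ hrR] at hκr
    push_cast at hκr
    exact hκr
  have h2 : α * (1 + κ) ≤ 1 := by
    have : α * κ ≤ α * (1 / α - 1) := mul_le_mul_of_nonneg_left hκα hα0.le
    have h3 : α * (1 / α - 1) = 1 - α := by
      field_simp
    linarith
  obtain ⟨N₀, hN₀⟩ := Filter.eventually_atTop.mp
    (Pool.Agent.helper8.HB.main hα0 hα1 (show 1 ≤ s by omega) hκ h1 h2 hε)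
  refine ⟨N₀, fun N hN a => ?_⟩
  have hsurj : ∀ p : ℕ, ∃ z : ℤ, (z : ZMod p) = a p := fun p => ZMod.intCast_surjective (a p)
  choose b hb using hsurj
  have hexp : (((s + 1 : ℕ) : ℝ) - (((s + 1 : ℕ) : ℝ) - 1) * κ) / (2 * ((s + 1 : ℕ) : ℝ) - 1) =
      ((s : ℝ) + 1 - s * κ) / (2 * s + 1) := by
    push_cast
    congr 1 <;> ring
  rw [hexp]
  refine (hN₀ N hN b).trans (le_of_eq ?_)
  have hset : {n : ℕ | 1 ≤ n ∧ n ≤ N ∧ ∃ p : ℕ, p.Prime ∧ (N : ℝ) ^ α ≤ p ∧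
      (p : ℝ) < 2 * (N : ℝ) ^ α ∧ (n : ZMod p) = a p} =
      ((dyadicPrimes ((N : ℝ) ^ α)).biUnion (Acl N b) : Set ℕ) := by
    ext n
    have hiff : ∀ p : ℕ, (n : ZMod p) = a p ↔ (p : ℤ) ∣ (n : ℤ) - b p := by
      intro p
      rw [← hb p, ← ZMod.intCast_zmod_eq_zero_iff_dvd, Int.cast_sub, sub_eq_zero, Int.cast_natCast]
    simp only [Set.mem_setOf_eq, Finset.mem_coe, Finset.mem_biUnion, mem_dyadicPrimes, mem_Acl,
      hiff]
    constructor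
    · rintro ⟨h1, h2, p, h3, h4, h5, h6⟩
      exact ⟨p, ⟨h3, h4, h5⟩, ⟨h1, h2⟩, h6⟩
    · rintro ⟨p, ⟨h3, h4, h5⟩, ⟨h1, h2⟩, h6⟩
      exact ⟨h1, h2, p, h3, h4, h5, h6⟩
  rw [hset, Set.ncard_coe_finset]

end Pool.Agent.helper86.Parked.Hairbrush
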