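import Pool.Agent.helper86.Parked.StarBound
import Pool.Agent.helper86.Parked.Hairbrush
import Pool.Agent.helper79.Parked.SlicesBound

/-!
Covering integers by one residue class for each prime in `[N ^ α, 2 N ^ α)`: a lower bound for the
size of the union, uniform in the choice of the classes, for every `α` in `(1/2, 1)`. The exponent
is the largest of three: a star (bush) bound, a hairbrush bound with the multiplicative energy of
the primes that meet one progression bounded through the large sieve, and the bound from the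
sums-differences theorem of Katz and Tao.
-/

namespace Pool.Agent.helper86.Parked.GeneralBound

theorem result (α : ℝ) (hα : 1 / 2 < α) (hα1 : α < 1) (ℓ : ℕ) (hℓ : 1 ≤ ℓ) (r : ℕ) (hr : 2 ≤ r)
    (κ : ℝ) (hκ : 0 < κ) (hκr : κ ≤ 2 / r) (hκα : κ ≤ 1 / α - 1) (ε : ℝ) (hε : 0 < ε) :
    ∃ N₀ : ℕ, ∀ N : ℕ, N₀ ≤ N → ∀ a : (p : ℕ) → ZMod p,
      (N : ℝ) ^ (max (max (2 - 2 * α + min (2 * α - 1) (4 * α - 2 - α / ℓ) / (2 * ℓ))
          (1 - α * max κ ((r - (r - 1) * κ) / (2 * r - 1)))) (1 - 3 * α / 7) - ε) ≤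
        ({n : ℕ | 1 ≤ n ∧ n ≤ N ∧ ∃ p : ℕ, p.Prime ∧ (N : ℝ) ^ α ≤ p ∧ (p : ℝ) < 2 * (N : ℝ) ^ α ∧
          (n : ZMod p) = a p}.ncard : ℝ) := by
  obtain ⟨N₁, h1⟩ := Pool.Agent.helper86.Parked.StarBound.result α hα hα1 ℓ hℓ ε hε
  obtain ⟨N₂, h2⟩ := Pool.Agent.helper86.Parked.Hairbrush.result α hα hα1 r hr κ hκ hκr hκα ε hε
  obtain ⟨N₃, h3⟩ := Pool.Agent.helper79.Parked.SlicesBound.result α (by linarith) hα1
  have hev : ∀ᶠ N : ℕ in Filter.atTop, 896 * Real.log (N : ℝ) ≤ (N : ℝ) ^ ε := by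
    have h := (isLittleO_log_rpow_atTop hε).bound (show (0 : ℝ) < 1 / 896 by norm_num)
    have h' := tendsto_natCast_atTop_atTop.eventually h
    filter_upwards [h', Filter.eventually_ge_atTop 1] with N hN hN1
    have hN1' : (1 : ℝ) ≤ N := by exact_mod_cast hN1
    rw [Real.norm_of_nonneg (Real.log_nonneg hN1'),
      Real.norm_of_nonneg (Real.rpow_nonneg (by linarith) _)] at hN
    linarith
  obtain ⟨N₄, h4⟩ := Filter.eventually_atTop.mp hev
  refine ⟨max (max N₁ N₂) (max N₃ (max N₄ 2)), fun N hN a => ?_⟩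
  have hN1 : N₁ ≤ N := by omega
  have hN2 : N₂ ≤ N := by omega
  have hN3 : N₃ ≤ N := by omega
  have hN4 : N₄ ≤ N := by omega
  have hNt : 2 ≤ N := by omega
  have hNR : (2 : ℝ) ≤ N := by exact_mod_cast hNt
  have hN0 : (0 : ℝ) < N := by linarith
  have hlog : 0 < Real.log N := Real.log_pos (by linarith)
  rcases max_choice (max (2 - 2 * α + min (2 * α - 1) (4 * α - 2 - α / ℓ) / (2 * ℓ))
          (1 - α * max κ ((r - (r - 1) * κ) / (2 * r - 1)))) (1 - 3 * α / 7) with h | h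
  · rw [h]
    rcases max_choice (2 - 2 * α + min (2 * α - 1) (4 * α - 2 - α / ℓ) / (2 * ℓ))
      (1 - α * max κ ((r - (r - 1) * κ) / (2 * r - 1))) with h' | h'
    · rw [h']
      exact h1 N hN1 a
    · rw [h']
      exact h2 N hN2 a
  · rw [h]
    refine le_trans ?_ (h3 N hN3 a)
    rw [le_div_iff₀ (by positivity)]
    calc (N : ℝ) ^ (1 - 3 * α / 7 - ε) * (896 * Real.log N)
        ≤ (N : ℝ) ^ (1 - 3 * α / 7 - ε) * (N : ℝ) ^ ε := by
          have := h4 N hN4
          gcongr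
      _ = (N : ℝ) ^ (1 - 3 * α / 7) := by
          rw [← Real.rpow_add hN0]
          congr 1
          ring

end Pool.Agent.helper86.Parked.GeneralBound
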