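import Pool.Agent.helper86.BK.All2

/-!
# The question lies between the arithmetic Kakeya conjecture and the Kakeya conjecture

`Q1` is the question. `SDC 1` is the arithmetic Kakeya conjecture of Katz and Tao (sums-differences
inequalities with exponents tending to `1`). A Kakeya set (`IsKak`) is a bounded set in `ℝ ^ n` which
contains a unit segment in every direction.

The arithmetic Kakeya conjecture implies `Q1`, and `Q1` implies that Kakeya sets in `ℝ ^ n` have lower
Minkowski dimension `n`, for every `n`. More precisely, a sums-differences exponent `β` gives the lower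
bound `N ^ (1 - (1 - 1 / β) α - o(1))` for every exponent `α`, and a lower bound `N ^ (e - o(1))` for a
single exponent `α` gives a lower bound for the dimension of Kakeya sets.
-/

set_option autoImplicit false

open Pool.Agent.BK

namespace Pool.Agent.helper86.Parked.KakeyaSets

theorem result :
    (SDC 1 → Q1) ∧
    (Q1 → ∀ n : ℕ, 2 ≤ n → ∀ K : Set (EuclideanSpace ℝ (Fin n)), IsKak K → MinkGE K n) ∧
    (∀ β : ℝ, 1 ≤ β → SDC β → ∀ α : ℝ, 0 < α → α < 1 → PAt α (1 - (1 - 1 / β) * α)) ∧
    (∀ α e : ℝ, 0 < α → α < 1 → 0 ≤ e → e ≤ 1 → PAt α e → ∀ n : ℕ, 2 ≤ n →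
      ∀ K : Set (EuclideanSpace ℝ (Fin n)), IsKak K →
        MinkGE K ((α + e * (n - 1)) / (α + (1 - α) * (n - 1)))) :=
  ⟨all_ak, all_kak1, all_sd, all_at⟩

end Pool.Agent.helper86.Parked.KakeyaSets
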