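import Mathlib
import Pool.Agent.helper86.StarFinal

/-!
Covering integers by one residue class for each prime in `[N ^ α, 2 N ^ α)`: a lower bound for the
size of the union that improves the Cauchy-Schwarz bound for every `α` in `(1/2, 1)`.
-/

namespace Pool.Agent.helper86.Parked.StarBound

open Pool.Agent.helper86

theorem result (α : ℝ) (hα : 1 / 2 < α) (hα1 : α < 1) (ℓ : ℕ) (hℓ : 1 ≤ ℓ) (ε : ℝ)
    (hε : 0 < ε) :
    ∃ N₀ : ℕ, ∀ N : ℕ, N₀ ≤ N → ∀ a : (p : ℕ) → ZMod p,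
      (N : ℝ) ^ (2 - 2 * α + min (2 * α - 1) (4 * α - 2 - α / ℓ) / (2 * ℓ) - ε) ≤
        ({n : ℕ | 1 ≤ n ∧ n ≤ N ∧ ∃ p : ℕ, p.Prime ∧ (N : ℝ) ^ α ≤ p ∧ (p : ℝ) < 2 * (N : ℝ) ^ α ∧
          (n : ZMod p) = a p}.ncard : ℝ) := by
  classical
  obtain ⟨N₀, hN₀⟩ := Filter.eventually_atTop.mp (star_main hα hα1 hℓ hε)
  refine ⟨N₀, fun N hN a => ?_⟩
  have hsurj : ∀ p : ℕ, ∃ z : ℤ, (z : ZMod p) = a p := fun p => ZMod.intCast_surjective (a p)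
  choose r hr using hsurj
  refine (hN₀ N hN r).trans (le_of_eq ?_)
  have hset : {n : ℕ | 1 ≤ n ∧ n ≤ N ∧ ∃ p : ℕ, p.Prime ∧ (N : ℝ) ^ α ≤ p ∧
      (p : ℝ) < 2 * (N : ℝ) ^ α ∧ (n : ZMod p) = a p} =
      ((dyadicPrimes ((N : ℝ) ^ α)).biUnion (Acl N r) : Set ℕ) := by
    ext n
    have hiff : ∀ p : ℕ, (n : ZMod p) = a p ↔ (p : ℤ) ∣ (n : ℤ) - r p := by
      intro p
      rw [← hr p, ← ZMod.intCast_zmod_eq_zero_iff_dvd, Int.cast_sub, sub_eq_zero, Int.cast_natCast]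
    simp only [Set.mem_setOf_eq, Finset.mem_coe, Finset.mem_biUnion, mem_dyadicPrimes, mem_Acl,
      hiff]
    constructor
    · rintro ⟨h1, h2, p, h3, h4, h5, h6⟩
      exact ⟨p, ⟨h3, h4, h5⟩, ⟨h1, h2⟩, h6⟩
    · rintro ⟨p, ⟨h3, h4, h5⟩, ⟨h1, h2⟩, h6⟩
      exact ⟨h1, h2, p, h3, h4, h5, h6⟩
  rw [hset, Set.ncard_coe_finset]

end Pool.Agent.helper86.Parked.StarBound
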